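import Mathlib
import Pool.Agent.Lib.MP_325c33_an.Spec2
import Pool.Agent.Lib.MP_325c33_an.Key

set_option autoImplicit false

namespace Pool.Agent.Results.MP_325c33_an.HoppingSpectrum

open Set Topology Filter
open scoped ENNReal

/-- The Hilbert space `ℓ²(ℤ)`. -/
abbrev L2 : Type := lp (fun _ : ℤ => ℂ) 2

/-- The sequence `A_b x`: `(A_b x)_n = b_{n-1} x_{n-1} + x_{n+1}`. -/
def hop (b : ℤ → ℤˣ) (x : ℤ → ℂ) (n : ℤ) : ℂ := (((b (n - 1) : ℤˣ) : ℤ) : ℂ) * x (n - 1) + x (n + 1)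

lemma norm_unit (u : ℤˣ) : ‖((u : ℤ) : ℂ)‖ = 1 := by
  rcases Int.units_eq_one_or u with h | h <;> simp [h]

lemma hop_sq (b : ℤ → ℤˣ) (x : ℤ → ℂ) (n : ℤ) :
    ‖hop b x n‖ ^ 2 ≤ 2 * ‖x (n - 1)‖ ^ 2 + 2 * ‖x (n + 1)‖ ^ 2 := by
  have h1 : ‖hop b x n‖ ≤ ‖x (n - 1)‖ + ‖x (n + 1)‖ := by
    unfold hop
    refine (norm_add_le _ _).trans ?_
    rw [norm_mul, norm_unit, one_mul]
  have h2 := norm_nonneg (hop b x n)
  nlinarith [sq_nonneg (‖x (n - 1)‖ - ‖x (n + 1)‖), norm_nonneg (x (n - 1)), norm_nonneg (x (n + 1))]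

lemma summ {x : ℤ → ℂ} (hx : Memℓp x 2) : Summable fun n => ‖x n‖ ^ 2 := by
  have := hx.summable (by norm_num)
  simpa using this

lemma memlp_hop (b : ℤ → ℤˣ) {x : ℤ → ℂ} (hx : Memℓp x 2) : Memℓp (hop b x) 2 := by
  apply memℓp_gen
  have h1 := summ hx
  have h2 : Summable fun n => 2 * ‖x (n - 1)‖ ^ 2 + 2 * ‖x (n + 1)‖ ^ 2 := by
    refine Summable.add (Summable.mul_left _ ?_) (Summable.mul_left _ ?_)
    · exact ((Equiv.subRight (1 : ℤ)).summable_iff (f := fun n => ‖x n‖ ^ 2)).mpr h1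
    · exact ((Equiv.addRight (1 : ℤ)).summable_iff (f := fun n => ‖x n‖ ^ 2)).mpr h1
  have h3 : (fun n => ‖hop b x n‖ ^ ((2 : ℝ≥0∞).toReal)) = fun n => ‖hop b x n‖ ^ 2 := by
    ext n; simp
  rw [h3]
  exact Summable.of_nonneg_of_le (fun n => by positivity) (fun n => hop_sq b x n) h2

/-- `A_b` as a linear map of `ℓ²(ℤ)`. -/
def hopLin (b : ℤ → ℤˣ) : L2 →ₗ[ℂ] L2 where
  toFun x := ⟨hop b x, memlp_hop b (lp.memℓp x)⟩
  map_add' x y := by
    apply lp.ext
    funext n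
    change (((b (n - 1) : ℤˣ) : ℤ) : ℂ) * ((x : ℤ → ℂ) (n - 1) + (y : ℤ → ℂ) (n - 1)) +
      ((x : ℤ → ℂ) (n + 1) + (y : ℤ → ℂ) (n + 1)) = hop b x n + hop b y n
    unfold hop
    ring
  map_smul' c x := by
    apply lp.ext
    funext n
    change (((b (n - 1) : ℤˣ) : ℤ) : ℂ) * (c * (x : ℤ → ℂ) (n - 1)) + c * (x : ℤ → ℂ) (n + 1)
      = c * hop b x n
    unfold hop
    ring

lemma hopLin_bound (b : ℤ → ℤˣ) (x : L2) : ‖hopLin b x‖ ≤ 2 * ‖x‖ := by
  have h1 := summ (lp.memℓp x)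
  have hs1 : Summable fun n : ℤ => ‖(x : ℤ → ℂ) (n - 1)‖ ^ 2 :=
    ((Equiv.subRight (1 : ℤ)).summable_iff (f := fun n => ‖(x : ℤ → ℂ) n‖ ^ 2)).mpr h1
  have hs2 : Summable fun n : ℤ => ‖(x : ℤ → ℂ) (n + 1)‖ ^ 2 :=
    ((Equiv.addRight (1 : ℤ)).summable_iff (f := fun n => ‖(x : ℤ → ℂ) n‖ ^ 2)).mpr h1
  have ht1 : ∑' n : ℤ, ‖(x : ℤ → ℂ) (n - 1)‖ ^ 2 = ∑' n : ℤ, ‖(x : ℤ → ℂ) n‖ ^ 2 :=
    (Equiv.subRight (1 : ℤ)).tsum_eq (fun n => ‖(x : ℤ → ℂ) n‖ ^ 2)
  have ht2 : ∑' n : ℤ, ‖(x : ℤ → ℂ) (n + 1)‖ ^ 2 = ∑' n : ℤ, ‖(x : ℤ → ℂ) n‖ ^ 2 :=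
    (Equiv.addRight (1 : ℤ)).tsum_eq (fun n => ‖(x : ℤ → ℂ) n‖ ^ 2)
  have hx2 : ‖x‖ ^ 2 = ∑' n : ℤ, ‖(x : ℤ → ℂ) n‖ ^ 2 := by
    have := lp.norm_rpow_eq_tsum (p := 2) (by norm_num) x
    simpa using this
  have hy2 : ‖hopLin b x‖ ^ 2 = ∑' n : ℤ, ‖hop b x n‖ ^ 2 := by
    have := lp.norm_rpow_eq_tsum (p := 2) (by norm_num) (hopLin b x)
    simpa [hopLin] using this
  have hle : ‖hopLin b x‖ ^ 2 ≤ (2 * ‖x‖) ^ 2 := by
    rw [hy2, mul_pow, hx2]
    calc ∑' n : ℤ, ‖hop b x n‖ ^ 2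
        ≤ ∑' n : ℤ, (2 * ‖(x : ℤ → ℂ) (n - 1)‖ ^ 2 + 2 * ‖(x : ℤ → ℂ) (n + 1)‖ ^ 2) :=
          (summ (memlp_hop b (lp.memℓp x))).tsum_le_tsum (fun n => hop_sq b x n)
            ((hs1.mul_left 2).add (hs2.mul_left 2))
      _ = 2 ^ 2 * ∑' n : ℤ, ‖(x : ℤ → ℂ) n‖ ^ 2 := by
          rw [(hs1.mul_left 2).tsum_add (hs2.mul_left 2), tsum_mul_left, tsum_mul_left, ht1, ht2]
          ring
  exact le_of_sq_le_sq hle (by positivity)

/-- The Feinberg-Zee hopping operator `A_b` as a bounded operator on `ℓ²(ℤ)`. -/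
noncomputable def A (b : ℤ → ℤˣ) : L2 →L[ℂ] L2 := LinearMap.mkContinuous (hopLin b) 2 (hopLin_bound b)

/-- Bounded operators on `ℓ²(ℤ)`. -/
abbrev Op : Type := L2 →L[ℂ] L2

/-- `T` is the operator `A_b`. -/
def IsHop (b : ℤ → ℤˣ) (T : Op) : Prop :=
  ∀ (x : L2) (n : ℤ), (T x : ℤ → ℂ) n = hop b x n

/-- The spectrum: the complex `z` for which `T - z` has no bounded two-sided inverse `S`. -/
def spec (T : Op) : Set ℂ := {z | ¬ ∃ S : Op, ∀ x y : L2, T x - z • x = y ↔ S y = x}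

lemma spec_eq' (T : Op) : spec T = spectrum ℂ T := by
  ext z
  rw [spectrum.mem_iff, ContinuousLinearMap.isUnit_iff_bijective]
  unfold spec
  rw [Set.mem_ofPred_eq, not_iff_not]
  have hu : ∀ x : L2, (algebraMap ℂ Op z - T) x = -(T x - z • x) := by
    intro x
    rw [sub_apply, Algebra.algebraMap_eq_smul_one]
    change z • x - T x = _
    abel
  constructor
  · rintro ⟨S, hS⟩
    constructor
    · intro x x' h
      rw [hu, hu, neg_inj] at h
      rw [← (hS x _).mp rfl, ← (hS x' _).mp rfl, h]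
    · intro y
      refine ⟨S (-y), ?_⟩
      rw [hu, (hS (S (-y)) (-y)).mpr rfl, neg_neg]
  · intro hb
    have hk : LinearMap.ker (algebraMap ℂ Op z - T).toLinearMap = ⊥ := LinearMap.ker_eq_bot.mpr hb.1
    have hr : LinearMap.range (algebraMap ℂ Op z - T).toLinearMap = ⊤ :=
      LinearMap.range_eq_top.mpr hb.2
    let e := ContinuousLinearEquiv.ofBijective (algebraMap ℂ Op z - T) hk hr
    refine ⟨-(e.symm : Op), fun x y => ?_⟩
    have he : ∀ x : L2, e x = -(T x - z • x) := hu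
    have hn : (-(e.symm : Op)) y = e.symm (-y) := by
      change -(e.symm y) = _
      rw [map_neg]
    rw [hn]
    constructor
    · rintro rfl
      rw [← he, e.symm_apply_apply]
    · rintro rfl
      have h1 := he (e.symm (-y))
      rw [e.apply_symm_apply, neg_inj] at h1
      exact h1.symm

/-- The set `Σ`: union of the spectra over all sign sequences. -/
def Sig : Set ℂ := {z | ∃ (b : ℤ → ℤˣ) (T : Op), IsHop b T ∧ z ∈ spec T}

/-- Every finite `±1` word occurs in `b`. -/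
def PseudoErgodic (b : ℤ → ℤˣ) : Prop :=
  ∀ (k : ℕ) (w : ℕ → ℤˣ), ∃ m : ℤ, ∀ i : ℕ, i < k → b (m + i) = w i

open Pool.Agent.Lib.MP_325c33_an

/-- complex version of a sign sequence -/
def cb (b : ℤ → ℤˣ) (n : ℤ) : ℂ := (((b n : ℤˣ) : ℤ) : ℂ)

lemma cb_sign (b : ℤ → ℤˣ) : IsSign (cb b) := by
  intro n
  unfold cb
  rcases Int.units_eq_one_or (b n) with h | h <;> simp [h]

lemma exists_cb {b : ℤ → ℂ} (hb : IsSign b) : ∃ b' : ℤ → ℤˣ, cb b' = b := by
  classical
  refine ⟨fun n => if b n = 1 then 1 else -1, ?_⟩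
  funext n
  unfold cb
  rcases hb n with h | h
  · simp [h]
  · have h1 : b n ≠ 1 := by rw [h]; norm_num
    simp only [h1, if_false]
    rw [h]; simp

lemma A_apply (b : ℤ → ℤˣ) (x : L2) (n : ℤ) : ((A b x : L2) : ℤ → ℂ) n = hop b x n := rfl

lemma notMem_iff (b : ℤ → ℤˣ) (z : ℂ) : z ∉ spectrum ℂ (A b) ↔ Good (cb b) z := by
  rw [spectrum.notMem_iff, ContinuousLinearMap.isUnit_iff_bijective]
  have hT : ∀ (x : L2) (n : ℤ), (((algebraMap ℂ (L2 →L[ℂ] L2) z - A b) x : L2) : ℤ → ℂ) n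
      = z * (x : ℤ → ℂ) n - hop b x n := by
    intro x n
    rw [sub_apply, Algebra.algebraMap_eq_smul_one]
    rfl
  constructor
  · rintro ⟨hinj, hsurj⟩ y hy
    obtain ⟨x, hx⟩ := hsurj (-(⟨y, hy⟩ : L2))
    refine ⟨(x : ℤ → ℂ), ⟨lp.memℓp x, fun n => ?_⟩, ?_⟩
    · have h1 := hT x n
      rw [hx] at h1
      have h2 : ((-(⟨y, hy⟩ : L2) : L2) : ℤ → ℂ) n = - y n := rfl
      rw [h2] at h1
      unfold hop at h1
      unfold cb
      linear_combination h1
    · rintro x' ⟨hx', hs⟩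
      have h3 : (⟨x', hx'⟩ : L2) = x := by
        apply hinj
        rw [hx]
        apply lp.ext
        funext n
        rw [hT]
        have h2 : ((-(⟨y, hy⟩ : L2) : L2) : ℤ → ℂ) n = - y n := rfl
        rw [h2]
        have h4 := hs n
        unfold cb at h4
        unfold hop
        change z * x' n - ((((b (n - 1) : ℤˣ) : ℤ) : ℂ) * x' (n - 1) + x' (n + 1)) = - y n
        linear_combination -h4
      rw [← h3]
  · intro hg
    constructor
    · intro x x' hxx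
      have hy : Memℓp (fun n => - ((((algebraMap ℂ (L2 →L[ℂ] L2) z - A b) x : L2) : ℤ → ℂ) n)) 2 :=
        (lp.memℓp ((algebraMap ℂ (L2 →L[ℂ] L2) z - A b) x)).neg
      obtain ⟨u, -, hu⟩ := hg _ hy
      have h1 : (x : ℤ → ℂ) = u := by
        apply hu
        refine ⟨lp.memℓp x, fun n => ?_⟩
        rw [hT]
        unfold cb hop
        ring
      have h2 : (x' : ℤ → ℂ) = u := by
        apply hu
        refine ⟨lp.memℓp x', fun n => ?_⟩
        rw [hxx, hT]
        unfold cb hop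
        ring
      apply lp.ext
      rw [h1, h2]
    · intro y
      obtain ⟨u, ⟨hu1, hu2⟩, -⟩ := hg (fun n => -((y : ℤ → ℂ) n)) (lp.memℓp y).neg
      refine ⟨⟨u, hu1⟩, ?_⟩
      apply lp.ext
      funext n
      rw [hT]
      have h4 := hu2 n
      unfold cb at h4
      unfold hop
      change z * u n - ((((b (n - 1) : ℤˣ) : ℤ) : ℂ) * u (n - 1) + u (n + 1)) = (y : ℤ → ℂ) n
      linear_combination -h4

lemma isHop_A (b : ℤ → ℤˣ) : IsHop b (A b) := fun x n => A_apply b x n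

lemma isHop_iff (b : ℤ → ℤˣ) (T : L2 →L[ℂ] L2) : IsHop b T ↔ T = A b := by
  constructor
  · intro h
    ext x n
    rw [h x n, A_apply]
  · rintro rfl
    exact isHop_A b

lemma mem_Sig (z : ℂ) : z ∈ Sig ↔ ∃ b : ℤ → ℤˣ, z ∈ spectrum ℂ (A b) := by
  constructor
  · rintro ⟨b, T, hT, hz⟩
    rw [isHop_iff] at hT
    subst hT
    exact ⟨b, spec_eq' _ ▸ hz⟩
  · rintro ⟨b, hz⟩
    exact ⟨b, A b, isHop_A b, (spec_eq' _).symm ▸ hz⟩

lemma Sig_eq : Sig = Bset := by
  rw [← spec_eq]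
  ext z
  rw [mem_Sig, mem_ofPred_eq]
  constructor
  · rintro ⟨b, hb⟩
    refine ⟨cb b, cb_sign b, ?_⟩
    rw [← notMem_iff]
    exact not_not.mpr hb
  · rintro ⟨b, hb, hg⟩
    obtain ⟨b', rfl⟩ := exists_cb hb
    refine ⟨b', ?_⟩
    rw [← notMem_iff] at hg
    exact not_not.mp hg

/-- windowed estimate -/
lemma win {b b' x : ℤ → ℂ} {z : ℂ} (hb' : IsSign b') (hx : ∀ n, op b' x z n = 0)
    {C : ℝ} (hC0 : 0 ≤ C) (hC : ∀ u y : ℤ → ℂ,
    ∀ (hu : Memℓp u 2) (hy : Memℓp y 2), (∀ n, op b u z n = y n) →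
    ‖(⟨u, hu⟩ : lp (fun _ : ℤ => ℂ) 2)‖ ≤ C * ‖(⟨y, hy⟩ : lp (fun _ : ℤ => ℂ) 2)‖)
    (hps : ∀ N : ℕ, ∃ m : ℤ, ∀ i : ℤ, -(N : ℤ) - 1 ≤ i → i ≤ N + 1 → b (m + i) = b' i)
    (N : ℕ) (hN : 1 ≤ N) {δ : ℝ} (hδ0 : 0 ≤ δ) (hδ : ∀ n : ℤ, (N : ℤ) ≤ |n| → ‖x n‖ ≤ δ)
    (s : Finset ℤ) (hs : ∀ n ∈ s, -(N : ℤ) ≤ n ∧ n ≤ N) :
    ∑ n ∈ s, ‖x n‖ ^ 2 ≤ (C * (4 * δ)) ^ 2 := by
  classical
  obtain ⟨m, hm⟩ := hps N
  set u : ℤ → ℂ := fun n => if -(N : ℤ) ≤ n - m ∧ n - m ≤ N then x (n - m) else 0 with hu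
  have hufin : {i | u i ≠ 0}.Finite := by
    refine (Finset.Icc (-(N : ℤ) + m) (N + m)).finite_toSet.subset ?_
    intro n hn
    by_contra hcon
    apply hn
    simp only [Finset.coe_Icc, Set.mem_Icc, not_and] at hcon
    simp only [hu]
    apply if_neg
    rintro ⟨h1, h2⟩
    exact hcon (by omega) (by omega)
  set y : ℤ → ℂ := fun n => op b u z n with hy
  set F : Finset ℤ := {m - (N : ℤ) - 1, m - (N : ℤ), m + (N : ℤ), m + (N : ℤ) + 1} with hF
  have hysupp : ∀ n, n ∉ F → y n = 0 := by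
    intro n hn
    simp only [hF, Finset.mem_insert, Finset.mem_singleton, not_or] at hn
    simp only [hy, op, hu]
    by_cases h1 : -(N : ℤ) < n - m ∧ n - m < N
    · rw [if_pos (by omega), if_pos (by omega), if_pos (by omega)]
      have h2 := hx (n - m)
      unfold op at h2
      have h3 := hm (n - m - 1) (by omega) (by omega)
      have e1 : m + (n - m - 1) = n - 1 := by ring
      have e2 : n - 1 - m = n - m - 1 := by ring
      have e3 : n + 1 - m = n - m + 1 := by ring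
      rw [e1] at h3
      rw [h3, e2, e3]
      exact h2
    · rw [if_neg (by omega), if_neg (by omega), if_neg (by omega)]
      ring
  have hyfin : {i | y i ≠ 0}.Finite := by
    refine F.finite_toSet.subset ?_
    intro n hn
    by_contra hcon
    exact hn (hysupp n hcon)
  have hyb : ∀ n, ‖y n‖ ≤ δ := by
    intro n
    by_cases hnF : n ∈ F
    · simp only [hF, Finset.mem_insert, Finset.mem_singleton] at hnF
      have hq : ∀ i : ℤ, ‖b' i‖ = 1 := norm_sign hb'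
      rcases hnF with h | h | h | h
      · have : y n = x (-(N : ℤ)) := by
          simp only [hy, op, hu]
          rw [if_neg (by omega), if_pos (by omega), if_neg (by omega)]
          have : n + 1 - m = -(N : ℤ) := by omega
          rw [this]; ring
        rw [this]
        exact hδ _ (by rw [abs_neg, Nat.abs_cast])
      · have : y n = -(b' (-(N : ℤ) - 1) * x (-(N : ℤ) - 1)) := by
          have h2 := hx (-(N : ℤ))
          unfold op at h2
          simp only [hy, op, hu]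
          rw [if_neg (by omega), if_pos (by omega), if_pos (by omega)]
          have e1 : n + 1 - m = -(N : ℤ) + 1 := by omega
          have e2 : n - m = -(N : ℤ) := by omega
          rw [e1, e2]
          linear_combination h2
        rw [this, norm_neg, norm_mul, hq, one_mul]
        apply hδ
        rw [abs_of_neg (by omega)]
        omega
      · have : y n = -x ((N : ℤ) + 1) := by
          have h2 := hx (N : ℤ)
          unfold op at h2
          simp only [hy, op, hu]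
          rw [if_pos (by omega), if_neg (by omega), if_pos (by omega)]
          have e1 : n - 1 - m = (N : ℤ) - 1 := by omega
          have e2 : n - m = (N : ℤ) := by omega
          have h3 := hm ((N : ℤ) - 1) (by omega) (by omega)
          have e3 : m + ((N : ℤ) - 1) = n - 1 := by omega
          rw [e3] at h3
          rw [e1, e2, h3]
          linear_combination h2
        rw [this, norm_neg]
        apply hδ
        rw [abs_of_nonneg (by omega)]
        omega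
      · have : y n = b' N * x N := by
          simp only [hy, op, hu]
          rw [if_pos (by omega), if_neg (by omega), if_neg (by omega)]
          have e1 : n - 1 - m = (N : ℤ) := by omega
          have h3 := hm (N : ℤ) (by omega) (by omega)
          have e3 : m + (N : ℤ) = n - 1 := by omega
          rw [e3] at h3
          rw [e1, h3]
          ring
        rw [this, norm_mul, hq, one_mul]
        exact hδ _ (by rw [Nat.abs_cast])
    · rw [hysupp n hnF, norm_zero]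
      exact hδ0
  have hylp : Memℓp y 2 := memlp_of_finite hyfin
  have hulp : Memℓp u 2 := memlp_of_finite hufin
  have hynorm : ‖(⟨y, hylp⟩ : lp (fun _ : ℤ => ℂ) 2)‖ ≤ 4 * δ := by
    apply lp.norm_le_of_forall_sum_le (by norm_num) (by positivity)
    intro t
    rw [two_toReal]
    have h1 : ∑ i ∈ t, ‖y i‖ ^ (2 : ℝ) ≤ ∑ i ∈ F, ‖y i‖ ^ (2 : ℝ) := by
      calc ∑ i ∈ t, ‖y i‖ ^ (2 : ℝ) = ∑ i ∈ t ∩ F, ‖y i‖ ^ (2 : ℝ) := by
            symm
            apply Finset.sum_subset Finset.inter_subset_left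
            intro i hi hi2
            rw [Finset.mem_inter, not_and] at hi2
            rw [hysupp i (hi2 hi)]
            simp
        _ ≤ _ := by
            apply Finset.sum_le_sum_of_subset_of_nonneg Finset.inter_subset_right
            intro i _ _
            positivity
    have h2 : ∑ i ∈ F, ‖y i‖ ^ (2 : ℝ) ≤ ∑ i ∈ F, δ ^ (2 : ℝ) := by
      apply Finset.sum_le_sum
      intro i _
      have := hyb i
      gcongr
    have h3 : ∑ i ∈ F, δ ^ (2 : ℝ) ≤ 4 * δ ^ (2 : ℝ) := by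
      rw [Finset.sum_const, nsmul_eq_mul]
      have : (F.card : ℝ) ≤ 4 := by
        rw [hF]
        exact_mod_cast Finset.card_le_four
      gcongr
    refine h1.trans (h2.trans (h3.trans ?_))
    rw [Real.rpow_two, Real.rpow_two]
    nlinarith [sq_nonneg δ]
  have hmain := hC u y hulp hylp (fun n => rfl)
  have h5 := lp.sum_rpow_le_norm_rpow (p := 2) (by norm_num) (⟨u, hulp⟩ : lp (fun _ : ℤ => ℂ) 2)
    (s.map ⟨fun n => n + m, fun a b h => by simpa using h⟩)
  rw [two_toReal, Real.rpow_two, Finset.sum_map] at h5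
  have h6 : ∑ n ∈ s, ‖x n‖ ^ 2 = ∑ n ∈ s, ‖u (n + m)‖ ^ (2 : ℝ) := by
    apply Finset.sum_congr rfl
    intro n hn
    simp only [hu]
    have h7 := hs n hn
    rw [if_pos (by omega), Real.rpow_two]
    congr 3
    ring
  rw [h6]
  refine h5.trans ?_
  have h7 : ‖(⟨u, hulp⟩ : lp (fun _ : ℤ => ℂ) 2)‖ ≤ C * (4 * δ) :=
    hmain.trans (by gcongr)
  gcongr

lemma bset_sub {b : ℤ → ℤˣ} (hps : PseudoErgodic b) : Bset ⊆ spectrum ℂ (A b) := by
  intro z hz
  by_contra hns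
  rw [notMem_iff] at hns
  obtain ⟨C, hC0, hC⟩ := exists_bound hns
  obtain ⟨b', x, hb', hx1, hx0, hx⟩ := (mem_Bset_iff z).mp hz
  have hx' : ∀ n, op b' x z n = 0 := fun n => by simpa using hx n
  obtain ⟨w, rfl⟩ := exists_cb hb'
  have hwin : ∀ N : ℕ, ∃ m : ℤ, ∀ i : ℤ, -(N : ℤ) - 1 ≤ i → i ≤ N + 1 → cb b (m + i) = cb w i := by
    intro N
    obtain ⟨m, hm⟩ := hps (2 * N + 3) (fun i => w (i - N - 1))
    refine ⟨m + N + 1, fun i h1 h2 => ?_⟩
    have h3 := hm (i + N + 1).toNat (by omega)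
    have e1 : (((i + N + 1).toNat : ℕ) : ℤ) = i + N + 1 := by omega
    simp only [e1] at h3
    unfold cb
    have e2 : m + (i + (N : ℤ) + 1) = m + N + 1 + i := by ring
    have e3 : i + (N : ℤ) + 1 - N - 1 = i := by ring
    rw [e2, e3] at h3
    rw [h3]
  have hsum : Summable fun n => ‖x n‖ ^ 2 := by
    apply summable_of_sum_le (c := (C * (4 * 1)) ^ 2) (fun n => by positivity)
    intro s
    obtain ⟨N, hN1, hN⟩ : ∃ N : ℕ, 1 ≤ N ∧ ∀ n ∈ s, -(N : ℤ) ≤ n ∧ n ≤ N := by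
      refine ⟨∑ n ∈ s, n.natAbs + 1, by omega, fun n hn => ?_⟩
      have : n.natAbs ≤ ∑ n ∈ s, n.natAbs := Finset.single_le_sum (f := fun n : ℤ => n.natAbs)
        (fun i _ => Nat.zero_le _) hn
      omega
    exact win (cb_sign w) hx' hC0 hC hwin N hN1 zero_le_one (fun n _ => hx1 n) s hN
  have htend := hsum.tendsto_cofinite_zero
  set δ : ℝ := 1 / (16 * (C + 1)) with hδ
  have hδ0 : 0 < δ := by positivity
  have hev : ∀ᶠ n in cofinite, ‖x n‖ ^ 2 < δ ^ 2 := htend.eventually_lt_const (by positivity)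
  rw [eventually_cofinite] at hev
  obtain ⟨N, hN1, hN⟩ : ∃ N : ℕ, 1 ≤ N ∧ ∀ n : ℤ, (N : ℤ) ≤ |n| → ‖x n‖ ≤ δ := by
    refine ⟨∑ n ∈ hev.toFinset, n.natAbs + 1, by omega, fun n hn => ?_⟩
    by_contra hcon
    push Not at hcon
    have hmem : n ∈ hev.toFinset := by
      rw [Set.Finite.mem_toFinset, mem_ofPred_eq, not_lt]
      gcongr
    have h1 : n.natAbs ≤ ∑ n ∈ hev.toFinset, n.natAbs :=
      Finset.single_le_sum (f := fun n : ℤ => n.natAbs) (fun i _ => Nat.zero_le _) hmem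
    have h2 : |n| = (n.natAbs : ℤ) := Int.abs_eq_natAbs n
    omega
  have hfin := win (cb_sign w) hx' hC0 hC hwin N hN1 hδ0.le hN {0}
    (fun n hn => by rw [Finset.mem_singleton] at hn; omega)
  rw [Finset.sum_singleton] at hfin
  have h4 : C * (4 * δ) ≤ 1 / 4 := by
    rw [hδ]
    rw [show C * (4 * (1 / (16 * (C + 1)))) = (C / (C + 1)) / 4 by field_simp; ring]
    have : C / (C + 1) ≤ 1 := by
      rw [div_le_one (by positivity)]
      linarith
    linarith
  have h5 : 0 ≤ C * (4 * δ) := by positivity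
  nlinarith

/-- **Theorem.** For each sign sequence `b` there is exactly one bounded operator `A_b`. The
Feinberg-Zee spectrum `Σ` (union of the spectra of all `A_b`) is a nonempty compact set, equal to the
closure of its interior; and for every pseudo-ergodic `b` the spectrum of `A_b` is `Σ`. -/
theorem result :
    (∀ b : ℤ → ℤˣ, ∃! T : Op, IsHop b T) ∧
    Sig.Nonempty ∧ IsCompact Sig ∧ closure (interior Sig) = Sig ∧
    ∀ (b : ℤ → ℤˣ) (T : Op), PseudoErgodic b → IsHop b T → spec T = Sig := by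
  have hcl : closure (interior Sig) = Sig := by
    rw [Sig_eq]
    exact Set.Subset.antisymm (closure_minimal interior_subset isClosed_Bset) Bset_subset_closure
  have hps : ∀ b : ℤ → ℤˣ, PseudoErgodic b → spectrum ℂ (A b) = Sig := by
    intro b hb
    apply Set.Subset.antisymm
    · intro z hz
      exact (mem_Sig z).mpr ⟨b, hz⟩
    · rw [Sig_eq]
      exact bset_sub hb
  refine ⟨fun b => ⟨A b, isHop_A b, fun T hT => (isHop_iff b T).mp hT⟩, ?_, ?_, hcl,
    fun b T hb hT => ?_⟩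
  · refine ⟨0, ?_⟩
    rw [Sig_eq]
    exact unit_ball_subset (by simp)
  · rw [Metric.isCompact_iff_isClosed_bounded]
    constructor
    · rw [Sig_eq]
      exact isClosed_Bset
    · rw [isBounded_iff_forall_norm_le]
      refine ⟨2, ?_⟩
      intro z hz
      obtain ⟨b, hb⟩ := (mem_Sig z).mp hz
      refine (spectrum.norm_le_norm_mul_of_mem hb).trans ?_
      have h1 : ‖A b‖ ≤ 2 := LinearMap.mkContinuous_norm_le _ (by norm_num) _
      have h2 : ‖(1 : L2 →L[ℂ] L2)‖ ≤ 1 := ContinuousLinearMap.norm_id_le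
      nlinarith [norm_nonneg (A b), norm_nonneg (1 : L2 →L[ℂ] L2)]
  · rw [(isHop_iff b T).mp hT, spec_eq']
    exact hps b hb

end Pool.Agent.Results.MP_325c33_an.HoppingSpectrum
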